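import Pool.Agent.H162R2.Sparse.Total
import Pool.Agent.TH559.LE.Bkw

/-!
# Extending total colourings of graphs of small maximum average degree: the reduction step
-/

set_option autoImplicit false
set_option linter.unusedSectionVars false

namespace Pool.Agent.Q241.DM

open Finset Pool.Agent.H162R2.Sparse

variable {V : Type} [Fintype V] [DecidableEq V]

theorem ext_bkw (G : SimpleGraph V) (X : Finset V) (L : V → V → Finset ℕ)
    (M : V → Finset ℕ) (hX : ∀ u ∈ X, ∀ v ∈ X, ¬ G.Adj u v)
    (hL1 : ∀ a b, G.Adj a b → a ∈ X → dg G b + 1 ≤ (L a b).card)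
    (hL2 : ∀ a b, G.Adj a b → a ∈ X → dg G a + dg G b + 1 ≤ (L a b).card + hh (ES G X) b)
    (hM : ∀ u ∈ X, 2 * dg G u < (M u).card)
    (hsym : ∀ a b, L a b = L b a) (IH : LT (cutX G X) L M) : LT G L M := by
  classical
  obtain ⟨f, g, hf1, hf2, hf3, hg1, hg2, hg3⟩ := IH
  let L' : V × V → Finset ℕ := fun e =>
    L e.1 e.2 \ (((nb G e.2).filter (fun v => ¬ v ∈ X)).image (f e.2) ∪ {g e.2})
  obtain ⟨col, hcol⟩ := Pool.Agent.TH559.LE.bkw (ES G X) L' (by
    intro e he
    have h1 := dg_split G X e.2
    have h2 := Finset.card_image_le (s := (nb G e.2).filter (fun v => ¬ v ∈ X)) (f := f e.2)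
    have h3 := Finset.le_card_sdiff
      (((nb G e.2).filter (fun v => ¬ v ∈ X)).image (f e.2) ∪ {g e.2}) (L e.1 e.2)
    have h4 := hL1 e.1 e.2 ((mem_ES G X e).1 he).1 ((mem_ES G X e).1 he).2
    have h5 := hL2 e.1 e.2 ((mem_ES G X e).1 he).1 ((mem_ES G X e).1 he).2
    have h6 := Finset.card_union_le (((nb G e.2).filter (fun v => ¬ v ∈ X)).image (f e.2))
      {g e.2}
    rw [Finset.card_singleton] at h6
    have h7 : ((ES G X).filter (fun f => f.2 = e.2)).card = hh (ES G X) e.2 := by
      unfold hh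
      congr
    have h8 : ((ES G X).filter (fun f => f.1 = e.1)).card ≤ dg G e.1 := by
      unfold dg
      apply Finset.card_le_card_of_injOn (fun f => f.2)
      · intro f hf
        rw [Finset.mem_coe, Finset.mem_filter, mem_ES] at hf
        rw [Finset.mem_coe, mem_nb, ← hf.2]
        exact hf.1.1
      · intro a ha b hb hab
        rw [Finset.mem_coe, Finset.mem_filter] at ha hb
        exact Prod.ext (ha.2.trans hb.2.symm) hab
    simp only [L']
    rw [max_le_iff]
    constructor
    · refine le_trans (le_of_eq (by congr)) (h8.trans ?_)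
      omega
    · refine le_trans (le_of_eq (by congr)) (h7.le.trans ?_)
      omega)
  have hc1 : ∀ e ∈ ES G X, col e ∈ L' e := fun e he => (hcol e he).1
  have hc2 : ∀ e ∈ ES G X, ∀ f ∈ ES G X, e ≠ f → (e.1 = f.1 ∨ e.2 = f.2) → col e ≠ col f :=
    fun e he f hf hne h => (hcol f hf).2 e he hne h
  have hcf : ∀ a b d, a ∉ X → b ∈ X → d ∉ X → G.Adj a b → G.Adj a d → col (b, a) ≠ f a d := by
    intro a b d ha hb hd hab had h
    have h1 := hc1 (b, a) ((mem_ES G X (b, a)).2 ⟨hab.symm, hb⟩)
    simp only [L'] at h1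
    rw [Finset.mem_sdiff] at h1
    apply h1.2
    rw [h]
    exact Finset.mem_union_left _
      (Finset.mem_image_of_mem _ (Finset.mem_filter.2 ⟨(mem_nb G a d).2 had, hd⟩))
  have hcg : ∀ a b, b ∈ X → G.Adj a b → g a ≠ col (b, a) := by
    intro a b hb hab h
    have h1 := hc1 (b, a) ((mem_ES G X (b, a)).2 ⟨hab.symm, hb⟩)
    simp only [L'] at h1
    rw [Finset.mem_sdiff] at h1
    apply h1.2
    rw [← h]
    exact Finset.mem_union_right _ (Finset.mem_singleton_self _)
  let f' : V → V → ℕ := fun a b => if a ∈ X then col (a, b) else if b ∈ X then col (b, a) else f a b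
  have hm : ∀ u, ∃ m, u ∈ X → m ∈ M u ∧ m ∉ (nb G u).image g ∪ (nb G u).image (f' u) := by
    intro u
    by_cases hu : u ∈ X
    · obtain ⟨m, hm1, hm2⟩ : ∃ m ∈ M u, m ∉ (nb G u).image g ∪ (nb G u).image (f' u) := by
        apply Finset.exists_mem_notMem_of_card_lt_card
        have h1 := Finset.card_union_le ((nb G u).image g) ((nb G u).image (f' u))
        have h2 := Finset.card_image_le (s := nb G u) (f := g)
        have h3 := Finset.card_image_le (s := nb G u) (f := f' u)
        have h4 := hM u hu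
        unfold dg at h4
        omega
      exact ⟨m, fun _ => ⟨hm1, hm2⟩⟩
    · exact ⟨0, fun h => absurd h hu⟩
  choose m hm using hm
  have hm1 : ∀ u, u ∈ X → m u ∈ M u := fun u hu => (hm u hu).1
  have hmg : ∀ u b, u ∈ X → G.Adj u b → g b ≠ m u := by
    intro u b hu hb h
    apply (hm u hu).2
    rw [← h]
    exact Finset.mem_union_left _ (Finset.mem_image_of_mem _ ((mem_nb G u b).2 hb))
  have hmf : ∀ u b, u ∈ X → G.Adj u b → f' u b ≠ m u := by
    intro u b hu hb h
    apply (hm u hu).2
    rw [← h]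
    exact Finset.mem_union_right _ (Finset.mem_image_of_mem _ ((mem_nb G u b).2 hb))
  refine ⟨f', fun a => if a ∈ X then m a else g a, ?_, ?_, ?_, ?_, ?_, ?_⟩
  · intro a b hab
    simp only [f']
    by_cases ha : a ∈ X
    · have hb : b ∉ X := fun hb => hX a ha b hb hab
      rw [if_pos ha, if_neg hb, if_pos ha]
    · by_cases hb : b ∈ X
      · rw [if_neg ha, if_pos hb, if_pos hb]
      · rw [if_neg ha, if_neg hb, if_neg hb, if_neg ha]
        exact hf1 a b ((cutX_adj G X a b).2 ⟨hab, ha, hb⟩)
  · intro a b hab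
    simp only [f']
    by_cases ha : a ∈ X
    · rw [if_pos ha]
      have h1 := hc1 (a, b) ((mem_ES G X (a, b)).2 ⟨hab, ha⟩)
      simp only [L'] at h1
      exact (Finset.mem_sdiff.1 h1).1
    · by_cases hb : b ∈ X
      · rw [if_neg ha, if_pos hb]
        have h1 := hc1 (b, a) ((mem_ES G X (b, a)).2 ⟨hab.symm, hb⟩)
        simp only [L'] at h1
        rw [hsym]
        exact (Finset.mem_sdiff.1 h1).1
      · rw [if_neg ha, if_neg hb]
        exact hf2 a b ((cutX_adj G X a b).2 ⟨hab, ha, hb⟩)
  · intro a b d hab had hbd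
    simp only [f']
    by_cases ha : a ∈ X
    · rw [if_pos ha, if_pos ha]
      apply hc2 _ ((mem_ES G X (a, b)).2 ⟨hab, ha⟩) _ ((mem_ES G X (a, d)).2 ⟨had, ha⟩)
      · intro h
        exact hbd (Prod.ext_iff.1 h).2
      · left
        rfl
    · rw [if_neg ha, if_neg ha]
      by_cases hb : b ∈ X
      · rw [if_pos hb]
        by_cases hd : d ∈ X
        · rw [if_pos hd]
          apply hc2 _ ((mem_ES G X (b, a)).2 ⟨hab.symm, hb⟩) _
            ((mem_ES G X (d, a)).2 ⟨had.symm, hd⟩)
          · intro h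
            exact hbd (Prod.ext_iff.1 h).1
          · right
            rfl
        · rw [if_neg hd]
          exact hcf a b d ha hb hd hab had
      · rw [if_neg hb]
        by_cases hd : d ∈ X
        · rw [if_pos hd]
          exact (hcf a d b ha hd hb had hab).symm
        · rw [if_neg hd]
          exact hf3 a b d ((cutX_adj G X a b).2 ⟨hab, ha, hb⟩)
            ((cutX_adj G X a d).2 ⟨had, ha, hd⟩) hbd
  · intro a
    simp only
    by_cases ha : a ∈ X
    · rw [if_pos ha]
      exact hm1 a ha
    · rw [if_neg ha]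
      exact hg1 a
  · intro a b hab
    simp only
    by_cases ha : a ∈ X
    · have hb : b ∉ X := fun hb => hX a ha b hb hab
      rw [if_pos ha, if_neg hb]
      exact (hmg a b ha hab).symm
    · rw [if_neg ha]
      by_cases hb : b ∈ X
      · rw [if_pos hb]
        exact hmg b a hb hab.symm
      · rw [if_neg hb]
        exact hg2 a b ((cutX_adj G X a b).2 ⟨hab, ha, hb⟩)
  · intro a b hab
    simp only
    by_cases ha : a ∈ X
    · rw [if_pos ha]
      exact (hmf a b ha hab).symm
    · rw [if_neg ha]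
      simp only [f']
      rw [if_neg ha]
      by_cases hb : b ∈ X
      · rw [if_pos hb]
        exact hcg a b hb hab
      · rw [if_neg hb]
        exact hg3 a b ((cutX_adj G X a b).2 ⟨hab, ha, hb⟩)


end Pool.Agent.Q241.DM
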