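import Mathlib

/-!
# Total colourings of a graph which extend a total colouring of a subgraph
-/

set_option autoImplicit false

namespace Pool.Agent.Q241.DM

/-- The colours `g` of the vertices in `A` and `f` of the edges in `E` form a total colouring with
the colours `0, …, k - 1`: vertices in `A` joined by an edge in `E` have different colours, edges
in `E` with a common vertex have different colours, and an edge in `E` and a vertex in `A` on it
have different colours. -/
def TotalColouring {V : Type} (A : Set V) (E : Set (Sym2 V)) (k : ℕ) (g : V → ℕ)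
    (f : Sym2 V → ℕ) : Prop :=
  (∀ v ∈ A, g v < k) ∧ (∀ e ∈ E, f e < k) ∧
  (∀ u ∈ A, ∀ v ∈ A, s(u, v) ∈ E → g u ≠ g v) ∧
  (∀ e ∈ E, ∀ e' ∈ E, e ≠ e' → (∃ v, v ∈ e ∧ v ∈ e') → f e ≠ f e') ∧
  (∀ v ∈ A, ∀ e ∈ E, v ∈ e → g v ≠ f e)

/-- Every total colouring of the subgraph `H` with `k` colours extends to a total colouring of `G`
with `k` colours. -/
def AllExtend {V : Type} (G : SimpleGraph V) (H : G.Subgraph) (k : ℕ) : Prop :=
  ∀ (g : V → ℕ) (f : Sym2 V → ℕ), TotalColouring H.verts H.edgeSet k g f →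
    ∃ (g' : V → ℕ) (f' : Sym2 V → ℕ), TotalColouring Set.univ G.edgeSet k g' f' ∧
      (∀ v ∈ H.verts, g' v = g v) ∧ ∀ e ∈ H.edgeSet, f' e = f e

/-- `H` is a matching in which vertices of different edges have distance at least `3` in `G`. -/
def DistanceThreeMatching {V : Type} (G : SimpleGraph V) (H : G.Subgraph) : Prop :=
  H.IsMatching ∧ ∀ u ∈ H.verts, ∀ v ∈ H.verts, u ≠ v → ¬ H.Adj u v → 3 ≤ G.edist u v

/-- The maximum average degree is at most `a`: every set `X` of vertices contains at most `a |X|`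
ordered pairs of adjacent vertices. -/
def MadLE {V : Type} (G : SimpleGraph V) (a : ℝ) : Prop :=
  ∀ X : Finset V, ({e : V × V | e.1 ∈ X ∧ e.2 ∈ X ∧ G.Adj e.1 e.2}.ncard : ℝ) ≤ a * X.card

theorem DistanceThreeMatching.isInduced {V : Type} {G : SimpleGraph V} {H : G.Subgraph}
    (h : DistanceThreeMatching G H) : H.IsInduced := by
  intro u hu v hv huv
  by_contra hno
  have h1 := h.2 u hu v hv huv.ne hno
  rw [SimpleGraph.edist_eq_one_iff_adj.2 huv] at h1
  exact absurd h1 (by decide)

theorem DistanceThreeMatching.near {V : Type} {G : SimpleGraph V} {H : G.Subgraph}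
    (h : DistanceThreeMatching G H) (v x y : V) (hx : G.Adj v x) (hy : G.Adj v y)
    (hxH : x ∈ H.verts) (hyH : y ∈ H.verts) (hxy : x ≠ y) : H.Adj x y := by
  by_contra hno
  have h1 := h.2 x hxH y hyH hxy hno
  have h2 : G.edist x y ≤ 2 := by
    have h3 := SimpleGraph.Walk.edist_le
      (SimpleGraph.Walk.cons hx.symm (SimpleGraph.Walk.cons hy SimpleGraph.Walk.nil))
    simpa using h3
  exact absurd (h1.trans h2) (by decide)

theorem DistanceThreeMatching.ncard_le {V : Type} {G : SimpleGraph V} {H : G.Subgraph}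
    (h : DistanceThreeMatching G H) (v : V) : (G.neighborSet v ∩ H.verts).ncard ≤ 2 := by
  by_contra hcon
  push Not at hcon
  have hfin : (G.neighborSet v ∩ H.verts).Finite := Set.finite_of_ncard_ne_zero (by omega)
  obtain ⟨x, y, z, hx, hy, hz, hxy, hxz, hyz⟩ := (Set.two_lt_ncard_iff hfin).1 hcon
  have h1 := h.near v x y hx.1 hy.1 hx.2 hy.2 hxy
  have h2 := h.near v x z hx.1 hz.1 hx.2 hz.2 hxz
  obtain ⟨w, _, hw⟩ := h.1 hx.2
  exact hyz ((hw y h1).trans (hw z h2).symm)

end Pool.Agent.Q241.DM
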