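import Pool.Agent.Q241.DM.Sparse
import Pool.Agent.Q241.DM.Bkw

/-!
# Extending total colourings of graphs of small maximum average degree: discharging
-/

set_option autoImplicit false
set_option linter.unusedSectionVars false

namespace Pool.Agent.Q241.DM

open Finset Pool.Agent.H162R2.Sparse

theorem choose_two (n : ℕ) : (n + 1).choose 2 = n + n.choose 2 := by
  rw [Nat.choose_succ_succ' n 1, Nat.choose_one_right]

theorem sum_trunc (d k : ℕ) (m : ℕ) :
    ∑ t ∈ range m, (t + d - k) ≤ (m + d - k).choose 2 := by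
  induction m with
  | zero => simp
  | succ m ih =>
    rw [Finset.sum_range_succ]
    by_cases h : k ≤ m + d
    · have h1 : m + 1 + d - k = (m + d - k) + 1 := by omega
      rw [h1, choose_two]
      omega
    · have h1 : m + d - k = 0 := by omega
      rw [h1] at ih ⊢
      simp only [Nat.choose_zero_succ, Nat.le_zero] at ih
      omega

theorem choose_step (m c k : ℕ) : ∀ (i d : ℕ), m + c ≤ d →
    m + c + (m + (d + i) - k).choose 2 ≤ d + i → m + c + (m + d - k).choose 2 ≤ d := by
  intro i
  induction i with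
  | zero =>
    intro d _ h
    simpa using h
  | succ i ih =>
    intro d hd h
    have h1 := ih (d + 1) (by omega) (by
      have e1 : m + (d + 1 + i) - k = m + (d + (i + 1)) - k := by omega
      rw [e1]
      omega)
    by_cases h2 : m + (d + 1) - k ≤ 1
    · have h3 : m + d - k ≤ 1 := by omega
      have h4 : (m + d - k).choose 2 = 0 := Nat.choose_eq_zero_of_lt (by omega)
      omega
    · have h3 : m + (d + 1) - k = (m + d - k) + 1 := by omega
      rw [h3, choose_two] at h1
      omega

theorem numeric (m c k D d : ℕ) (hm : m + c + (m + D - k).choose 2 ≤ D) (hd : m + c ≤ d)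
    (hdD : d ≤ D) : m + c + ∑ t ∈ range m, (t + d - k) ≤ d := by
  have h1 := choose_step m c k (D - d) d hd (by
    have : d + (D - d) = D := by omega
    rw [this]
    exact hm)
  have h2 := sum_trunc d k m
  omega

variable {V : Type} [Fintype V] [DecidableEq V]

theorem sum_inside (G : SimpleGraph V) (T : Finset V) :
    ((pr G).filter (fun e => e.1 ∈ T ∧ e.2 ∈ T)).card =
      ∑ v ∈ T, ((nb G v).filter (fun w => w ∈ T)).card := by
  classical
  rw [Finset.card_eq_sum_card_fiberwise (f := Prod.fst) (t := T)]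
  · apply Finset.sum_congr rfl
    intro u hu
    apply Finset.card_bij (fun e _ => e.2)
    · intro e he
      rw [Finset.mem_filter, Finset.mem_filter, mem_pr] at he
      rw [Finset.mem_filter, mem_nb, ← he.2]
      exact ⟨he.1.1, he.1.2.2⟩
    · intro e he f hf h
      rw [Finset.mem_filter] at he hf
      exact Prod.ext (he.2.trans hf.2.symm) h
    · intro w hw
      rw [Finset.mem_filter, mem_nb] at hw
      refine ⟨(u, w), ?_, rfl⟩
      rw [Finset.mem_filter, Finset.mem_filter, mem_pr]
      exact ⟨⟨hw.1, hu, hw.2⟩, rfl⟩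
  · intro e he
    rw [Finset.mem_coe, Finset.mem_filter] at he
    exact he.2.1

/-- the number of vertices of degree at most `t` outside `W` -/
theorem peelX (G : SimpleGraph V) (k t : ℕ) (W : Finset V) (ht : 2 * t < k)
    (hset : ∀ X : Finset V, X.Nonempty → (∀ u ∈ X, u ∉ W ∧ 1 ≤ dg G u ∧ 2 * dg G u < k) →
      ∃ a b, G.Adj a b ∧ a ∈ X ∧ k + hh (ES G X) b ≤ dg G a + dg G b) :
    ∀ (n : ℕ) (X : Finset V), X.card = n → (∀ u ∈ X, u ∉ W ∧ 1 ≤ dg G u ∧ dg G u ≤ t) →
      ∀ R : Finset V, (∀ x ∈ X, ∀ y, G.Adj x y → y ∈ R) →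
      X.card ≤ ∑ y ∈ R, (t + dg G y - k) := by
  classical
  intro n
  induction n using Nat.strong_induction_on with
  | _ n ih =>
    intro X hn hX R hR
    rcases X.eq_empty_or_nonempty with rfl | hne
    · simp
    obtain ⟨a, b, hab, haX, hk⟩ := hset X hne (fun u hu => by
      obtain ⟨h1, h2, h3⟩ := hX u hu
      exact ⟨h1, h2, by omega⟩)
    have hbR : b ∈ R := hR a haX b hab
    set X1 := X.filter (fun x => G.Adj x b) with hX1
    set X2 := X.filter (fun x => ¬ G.Adj x b) with hX2
    have hcard : X1.card + X2.card = X.card :=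
      Finset.card_filter_add_card_filter_not (s := X) (fun x => G.Adj x b)
    have hh1 : hh (ES G X) b = X1.card := by
      rw [hh_ES, hX1]
      congr 1
      ext x
      rw [Finset.mem_filter, Finset.mem_filter, mem_nb]
      exact ⟨fun h => ⟨h.2, h.1.symm⟩, fun h => ⟨h.2.symm, h.1⟩⟩
    have ha1 : 1 ≤ X1.card := by
      rw [Nat.one_le_iff_ne_zero, Finset.card_ne_zero]
      exact ⟨a, Finset.mem_filter.2 ⟨haX, hab⟩⟩
    have h2 := ih X2.card (by omega) X2 rfl (fun u hu => hX u (Finset.mem_filter.1 hu).1)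
      (R.erase b) (by
        intro x hx y hxy
        rw [Finset.mem_filter] at hx
        rw [Finset.mem_erase]
        refine ⟨?_, hR x hx.1 y hxy⟩
        rintro rfl
        exact hx.2 hxy)
    have h3 := Finset.add_sum_erase R (fun y => t + dg G y - k) hbR
    have h4 := (hX a haX).2.2
    omega

theorem reducible (G : SimpleGraph V) (D k m c : ℕ) (W : Finset V)
    (hD : ∀ v, dg G v ≤ D)
    (hk : 2 * (m + c) ≤ k + 1) (hm : m + c + (m + D - k).choose 2 ≤ D)
    (hdens : ∀ X : Finset V, X.Nonempty →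
      ((pr G).filter (fun e => e.1 ∈ X ∧ e.2 ∈ X)).card < m * X.card)
    (hW : ∀ v, ((nb G v).filter (fun w => w ∈ W)).card ≤ c)
    (hedge : ∃ u v, G.Adj u v ∧ u ∉ W)
    (hno : ∀ u v, G.Adj u v → u ∉ W → 2 * dg G u < k → k < dg G u + dg G v) :
    ∃ X : Finset V, X.Nonempty ∧ (∀ u ∈ X, u ∉ W ∧ 1 ≤ dg G u ∧ 2 * dg G u < k) ∧
      (∀ u ∈ X, ∀ v ∈ X, ¬ G.Adj u v) ∧
      ∀ a b, G.Adj a b → a ∈ X → dg G a + dg G b + 1 ≤ k + hh (ES G X) b := by
  classical
  by_contra hcon
  have hset : ∀ X : Finset V, X.Nonempty → (∀ u ∈ X, u ∉ W ∧ 1 ≤ dg G u ∧ 2 * dg G u < k) →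
      ∃ a b, G.Adj a b ∧ a ∈ X ∧ k + hh (ES G X) b ≤ dg G a + dg G b := by
    intro X hne hX
    by_contra hno'
    push Not at hno'
    apply hcon
    refine ⟨X, hne, hX, ?_, ?_⟩
    · intro u hu v hv huv
      have h1 := hno u v huv (hX u hu).1 (hX u hu).2.2
      have h2 := (hX u hu).2.2
      have h3 := (hX v hv).2.2
      omega
    · intro a b hab ha
      have h1 := hno' a b hab ha
      omega
  have hdpos : ∀ u v, G.Adj u v → 1 ≤ dg G v := by
    intro u v h
    unfold dg
    rw [Nat.one_le_iff_ne_zero, Finset.card_ne_zero]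
    exact ⟨u, (mem_nb G v u).2 h.symm⟩
  let T : Finset V := Finset.univ.filter (fun v => 1 ≤ dg G v ∧ (v ∈ W → m + c ≤ dg G v))
  let S : Finset V := T.filter (fun v => v ∉ W ∧ dg G v < m)
  let R : Finset V := T.filter (fun v => ¬ (v ∉ W ∧ dg G v < m))
  have hmT : ∀ v, v ∈ T ↔ 1 ≤ dg G v ∧ (v ∈ W → m + c ≤ dg G v) := by
    intro v
    simp [T]
  have hT0 : T.Nonempty := by
    obtain ⟨u, v, h, hu⟩ := hedge
    exact ⟨u, (hmT u).2 ⟨hdpos v u h.symm, fun h' => absurd h' hu⟩⟩
  have hlt : ∑ v ∈ T, ((nb G v).filter (fun w => w ∈ T)).card < m * T.card := by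
    rw [← sum_inside]
    exact hdens T hT0
  -- neighbours of vertices of small degree outside `W` lie in `T`
  have hbig : ∀ u v, G.Adj u v → u ∉ W → 2 * dg G u < k → v ∈ T ∧ m + c ≤ dg G v := by
    intro u v huv hu h
    have h1 := hno u v huv hu h
    have h2 : m + c ≤ dg G v := by omega
    exact ⟨(hmT v).2 ⟨hdpos u v huv, fun _ => h2⟩, h2⟩
  have hfull : ∀ u, u ∉ W → 2 * dg G u < k → ((nb G u).filter (fun w => w ∈ T)).card = dg G u := by
    intro u hu h
    unfold dg
    congr 1
    rw [Finset.filter_eq_self]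
    intro w hw
    exact (hbig u w ((mem_nb G u w).1 hw) hu h).1
  have hlow : ∀ v, dg G v ≤ ((nb G v).filter (fun w => w ∈ T)).card + c := by
    intro v
    have h4 : ((nb G v).filter (fun w => w ∈ T)).card +
        ((nb G v).filter (fun w => ¬ w ∈ T)).card = dg G v :=
      Finset.card_filter_add_card_filter_not (s := nb G v) (fun w => w ∈ T)
    have h5 : ((nb G v).filter (fun w => ¬ w ∈ T)).card ≤
        ((nb G v).filter (fun w => w ∈ W)).card := by
      apply Finset.card_le_card
      intro w hw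
      rw [Finset.mem_filter] at hw ⊢
      refine ⟨hw.1, ?_⟩
      by_contra hwW
      exact hw.2 ((hmT w).2 ⟨hdpos v w ((mem_nb G v w).1 hw.1), fun h' => absurd h' hwW⟩)
    have h6 := hW v
    omega
  have hS : ∀ v ∈ S, v ∉ W ∧ 1 ≤ dg G v ∧ dg G v < m := by
    intro v hv
    rw [Finset.mem_filter] at hv
    exact ⟨hv.2.1, ((hmT v).1 hv.1).1, hv.2.2⟩
  have hSk : ∀ v ∈ S, 2 * dg G v < k := by
    intro v hv
    have := hS v hv
    omega
  have hRd : ∀ v ∈ R, m + ∑ t ∈ range m, (t + dg G v - k) ≤
      ((nb G v).filter (fun w => w ∈ T)).card := by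
    intro v hv
    rw [Finset.mem_filter] at hv
    obtain ⟨hvT, hv2⟩ := hv
    have hvT' := (hmT v).1 hvT
    by_cases hvW : v ∈ W
    · have h1 := numeric m c k D (dg G v) hm (hvT'.2 hvW) (hD v)
      have h2 := hlow v
      omega
    · have hvm : m ≤ dg G v := by
        by_contra hlt'
        exact hv2 ⟨hvW, by omega⟩
      by_cases h2 : 2 * dg G v < k
      · rw [hfull v hvW h2]
        have h3 : ∑ t ∈ range m, (t + dg G v - k) = 0 := by
          apply Finset.sum_eq_zero
          intro t ht
          rw [Finset.mem_range] at ht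
          omega
        rw [h3]
        omega
      · have h1 := numeric m c k D (dg G v) hm (by omega) (hD v)
        have h3 := hlow v
        omega
  have hA : ∑ x ∈ S, (m - dg G x) ≤ ∑ y ∈ R, ∑ t ∈ range m, (t + dg G y - k) := by
    have e1 : ∀ x ∈ S, m - dg G x = ((range m).filter (fun t => dg G x ≤ t)).card := by
      intro x _
      have : (range m).filter (fun t => dg G x ≤ t) = Finset.Ico (dg G x) m := by
        ext t
        rw [Finset.mem_filter, Finset.mem_range, Finset.mem_Ico]
        tauto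
      rw [this, Nat.card_Ico]
    rw [Finset.sum_congr rfl e1]
    simp_rw [Finset.card_filter]
    rw [Finset.sum_comm, Finset.sum_comm (s := R)]
    apply Finset.sum_le_sum
    intro t ht
    rw [Finset.mem_range] at ht
    rw [← Finset.card_filter]
    apply peelX G k t W (by omega) hset _ _ rfl
    · intro u hu
      rw [Finset.mem_filter] at hu
      have h1 := hS u hu.1
      exact ⟨h1.1, h1.2.1, hu.2⟩
    · intro x hx y hxy
      rw [Finset.mem_filter] at hx
      have h1 := hbig x y hxy (hS x hx.1).1 (hSk x hx.1)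
      rw [Finset.mem_filter]
      refine ⟨h1.1, ?_⟩
      rintro ⟨_, h2⟩
      omega
  have hsplit : ∑ v ∈ S, ((nb G v).filter (fun w => w ∈ T)).card +
      ∑ v ∈ R, ((nb G v).filter (fun w => w ∈ T)).card =
        ∑ v ∈ T, ((nb G v).filter (fun w => w ∈ T)).card :=
    Finset.sum_filter_add_sum_filter_not T _ _
  have hSR : S.card + R.card = T.card :=
    Finset.card_filter_add_card_filter_not (s := T) _
  have h1 : m * S.card ≤ ∑ v ∈ S, ((nb G v).filter (fun w => w ∈ T)).card +
      ∑ x ∈ S, (m - dg G x) := by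
    rw [← Finset.sum_add_distrib, mul_comm, ← smul_eq_mul, ← Finset.sum_const]
    apply Finset.sum_le_sum
    intro v hv
    rw [hfull v (hS v hv).1 (hSk v hv)]
    omega
  have h2 : m * R.card + ∑ y ∈ R, ∑ t ∈ range m, (t + dg G y - k) ≤
      ∑ v ∈ R, ((nb G v).filter (fun w => w ∈ T)).card := by
    rw [mul_comm, ← smul_eq_mul, ← Finset.sum_const, ← Finset.sum_add_distrib]
    exact Finset.sum_le_sum hRd
  have h3 : m * S.card + m * R.card = m * T.card := by rw [← hSR]; ring
  omega

end Pool.Agent.Q241.DM
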