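import Pool.Agent.Q241.DM.Sparse
import Pool.Agent.Q241.DM.Defs

/-!
# From total colourings of a subgraph to lists
-/

set_option autoImplicit false
set_option linter.unusedSectionVars false

namespace Pool.Agent.Q241.DM

open Finset Pool.Agent.H162R2.Sparse

variable {V : Type} [Fintype V] [DecidableEq V]

open Classical in
/-- the lists of the edges -/
noncomputable def eL (A : Set V) (k : ℕ) (f : Sym2 V → ℕ) (a b : V) : Finset ℕ :=
  if a ∈ A ∧ b ∈ A then {f s(a, b)} else Finset.range k

open Classical in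
/-- the lists of the vertices -/
noncomputable def vL (A : Set V) (k : ℕ) (g : V → ℕ) (a : V) : Finset ℕ :=
  if a ∈ A then {g a} else Finset.range k

theorem eL_symm (A : Set V) (k : ℕ) (f : Sym2 V → ℕ) (a b : V) : eL A k f a b = eL A k f b a := by
  unfold eL
  by_cases h : a ∈ A ∧ b ∈ A
  · rw [if_pos h, if_pos h.symm, Sym2.eq_swap]
  · rw [if_neg h, if_neg (fun h' => h h'.symm)]

/-- a symmetric function on pairs as a function on `Sym2` -/
theorem exists_sym (G : SimpleGraph V) (f : V → V → ℕ) (hf : ∀ a b, G.Adj a b → f a b = f b a) :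
    ∃ f' : Sym2 V → ℕ, ∀ a b, G.Adj a b → f' s(a, b) = f a b := by
  refine ⟨fun e => f (Quot.out e).1 (Quot.out e).2, ?_⟩
  intro a b hab
  have h1 : s((Quot.out s(a, b)).1, (Quot.out s(a, b)).2) = s(a, b) := by
    exact Quot.out_eq s(a, b)
  rcases Sym2.eq_iff.1 h1 with ⟨h2, h3⟩ | ⟨h2, h3⟩
  · simp only
    rw [h2, h3]
  · simp only
    rw [h2, h3]
    exact (hf a b hab).symm

/-- The colouring of the induced subgraph as a colouring from lists. -/
theorem base (G : SimpleGraph V) (H : G.Subgraph) (hind : H.IsInduced) (k : ℕ) (hk : 0 < k)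
    (g : V → ℕ) (f : Sym2 V → ℕ) (hc : TotalColouring H.verts H.edgeSet k g f) (W : Finset V)
    (hW : ∀ v, v ∈ W ↔ v ∈ H.verts) :
    LT (inW G W) (eL H.verts k f) (vL H.verts k g) := by
  classical
  obtain ⟨h1, h2, h3, h4, h5⟩ := hc
  have hH : ∀ a b, (inW G W).Adj a b → a ∈ H.verts ∧ b ∈ H.verts ∧ s(a, b) ∈ H.edgeSet := by
    intro a b hab
    have ha := (hW a).1 hab.2.1
    have hb := (hW b).1 hab.2.2
    refine ⟨ha, hb, ?_⟩
    rw [SimpleGraph.Subgraph.mem_edgeSet]
    exact hind ha hb hab.1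
  refine ⟨fun a b => f s(a, b), fun a => if a ∈ H.verts then g a else 0, ?_, ?_, ?_, ?_, ?_, ?_⟩
  · intro a b _
    simp only
    rw [Sym2.eq_swap]
  · intro a b hab
    obtain ⟨ha, hb, _⟩ := hH a b hab
    unfold eL
    rw [if_pos ⟨ha, hb⟩]
    exact Finset.mem_singleton_self _
  · intro a b d hab had hbd
    obtain ⟨ha, hb, hE⟩ := hH a b hab
    obtain ⟨_, hd, hE'⟩ := hH a d had
    apply h4 _ hE _ hE'
    · intro h
      rcases Sym2.eq_iff.1 h with ⟨_, h6⟩ | ⟨h6, h7⟩
      · exact hbd h6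
      · exact hbd (h7.trans h6)
    · exact ⟨a, Sym2.mem_mk_left _ _, Sym2.mem_mk_left _ _⟩
  · intro a
    unfold vL
    beta_reduce
    by_cases ha : a ∈ H.verts
    · rw [if_pos ha, if_pos ha]
      exact Finset.mem_singleton_self _
    · rw [if_neg ha, if_neg ha]
      exact Finset.mem_range.2 hk
  · intro a b hab
    obtain ⟨ha, hb, hE⟩ := hH a b hab
    beta_reduce
    rw [if_pos ha, if_pos hb]
    exact h3 a ha b hb hE
  · intro a b hab
    obtain ⟨ha, hb, hE⟩ := hH a b hab
    beta_reduce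
    rw [if_pos ha]
    exact h5 a ha _ hE (Sym2.mem_mk_left _ _)

/-- From a colouring from the lists to an extension. -/
theorem extend (G : SimpleGraph V) (H : G.Subgraph) (hind : H.IsInduced) (k : ℕ)
    (g : V → ℕ) (f : Sym2 V → ℕ) (hc : TotalColouring H.verts H.edgeSet k g f)
    (h : LT G (eL H.verts k f) (vL H.verts k g)) :
    ∃ (g' : V → ℕ) (f' : Sym2 V → ℕ), TotalColouring Set.univ G.edgeSet k g' f' ∧
      (∀ v ∈ H.verts, g' v = g v) ∧ ∀ e ∈ H.edgeSet, f' e = f e := by
  classical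
  obtain ⟨f₁, g₁, hf1, hf2, hf3, hg1, hg2, hg3⟩ := h
  obtain ⟨f', hf'⟩ := exists_sym G f₁ hf1
  have hgH : ∀ v ∈ H.verts, g₁ v = g v := by
    intro v hv
    have h1 := hg1 v
    unfold vL at h1
    rw [if_pos hv, Finset.mem_singleton] at h1
    exact h1
  have hfH : ∀ e ∈ H.edgeSet, f' e = f e := by
    intro e
    induction e using Sym2.ind with
    | _ a b =>
      intro he
      have he' : H.Adj a b := by rwa [SimpleGraph.Subgraph.mem_edgeSet] at he
      have hab := he'.adj_sub
      have h1 := hf2 a b hab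
      unfold eL at h1
      rw [if_pos ⟨H.edge_vert he', H.edge_vert he'.symm⟩, Finset.mem_singleton] at h1
      rw [hf' a b hab, h1]
  refine ⟨g₁, f', ⟨?_, ?_, ?_, ?_, ?_⟩, hgH, hfH⟩
  · intro v _
    by_cases hv : v ∈ H.verts
    · rw [hgH v hv]
      exact hc.1 v hv
    · have h1 := hg1 v
      unfold vL at h1
      rw [if_neg hv, Finset.mem_range] at h1
      exact h1
  · intro e
    induction e using Sym2.ind with
    | _ a b =>
      intro he
      have hab : G.Adj a b := he
      by_cases hH : s(a, b) ∈ H.edgeSet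
      · rw [hfH _ hH]
        exact hc.2.1 _ hH
      · rw [hf' a b hab]
        have h1 := hf2 a b hab
        unfold eL at h1
        have hAB : ¬ (a ∈ H.verts ∧ b ∈ H.verts) := by
          rintro ⟨ha, hb⟩
          apply hH
          rw [SimpleGraph.Subgraph.mem_edgeSet]
          exact hind ha hb hab
        rw [if_neg hAB, Finset.mem_range] at h1
        exact h1
  · intro u _ v _ huv
    exact hg2 u v huv
  · intro e he e' he' hne hex
    obtain ⟨x, hx, hx'⟩ := hex
    obtain ⟨b, rfl⟩ := Sym2.mem_iff_exists.1 hx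
    obtain ⟨d, rfl⟩ := Sym2.mem_iff_exists.1 hx'
    have hxb : G.Adj x b := he
    have hxd : G.Adj x d := he'
    rw [hf' x b hxb, hf' x d hxd]
    apply hf3 x b d hxb hxd
    rintro rfl
    exact hne rfl
  · intro v _ e he hv
    obtain ⟨b, rfl⟩ := Sym2.mem_iff_exists.1 hv
    have hvb : G.Adj v b := he
    rw [hf' v b hvb]
    exact hg3 v b hvb

end Pool.Agent.Q241.DM
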