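import Pool.Agent.Q241.DM.Discharge
import Pool.Agent.Q241.DM.Lists

/-!
# Extending total colourings of graphs of small maximum average degree: the induction
-/

set_option autoImplicit false
set_option linter.unusedSectionVars false

namespace Pool.Agent.Q241.DM

open Finset Pool.Agent.H162R2.Sparse

/-- The maximum average degree is less than `m`: every nonempty set `X` of vertices contains fewer
than `m |X|` ordered pairs of adjacent vertices. -/
def MadLT {V : Type} (G : SimpleGraph V) (m : ℕ) : Prop :=
  ∀ X : Finset V, X.Nonempty →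
    {e : V × V | e.1 ∈ X ∧ e.2 ∈ X ∧ G.Adj e.1 e.2}.ncard < m * X.card

variable {V : Type} [Fintype V] [DecidableEq V]

theorem MadLT.dens {G : SimpleGraph V} {m : ℕ} (h : MadLT G m) (X : Finset V) (hX : X.Nonempty) :
    ((pr G).filter (fun e => e.1 ∈ X ∧ e.2 ∈ X)).card < m * X.card := by
  refine lt_of_le_of_lt (le_of_eq ?_) (h X hX)
  rw [← Set.ncard_coe_finset]
  congr 1
  ext e
  simp only [Finset.coe_filter, mem_pr]
  constructor
  · rintro ⟨h1, h2, h3⟩
    exact ⟨h2, h3, h1⟩
  · rintro ⟨h1, h2, h3⟩
    exact ⟨h3, h1, h2⟩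

theorem main_small (D k m c : ℕ) (hDk : D + 1 ≤ k)
    (hk : 2 * (m + c) ≤ k + 1) (hm : m + c + (m + D - k).choose 2 ≤ D) (W : Finset V)
    (L : V → V → Finset ℕ) (M : V → Finset ℕ)
    (hsym : ∀ a b, L a b = L b a) (hM : ∀ v, v ∉ W → k ≤ (M v).card)
    (G₀ : SimpleGraph V) (hbase : LT (inW G₀ W) L M)
    (hL : ∀ u v, G₀.Adj u v → u ∉ W → k ≤ (L u v).card) :
    ∀ (n : ℕ) (G : SimpleGraph V), (pr G).card = n → (∀ a b, G.Adj a b → G₀.Adj a b) →
      (∀ v, dg G v ≤ D) →
      (∀ X : Finset V, X.Nonempty →
        ((pr G).filter (fun e => e.1 ∈ X ∧ e.2 ∈ X)).card < m * X.card) →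
      (∀ v, ((nb G v).filter (fun w => w ∈ W)).card ≤ c) → LT G L M := by
  classical
  intro n
  induction n using Nat.strong_induction_on with
  | _ n ih =>
    intro G hn hG₀ hD hdens hW
    have hWmono : ∀ G' : SimpleGraph V, (∀ a b, G'.Adj a b → G.Adj a b) →
        ∀ v, ((nb G' v).filter (fun w => w ∈ W)).card ≤ c := by
      intro G' h v
      refine le_trans ?_ (hW v)
      apply Finset.card_le_card
      intro w hw
      rw [Finset.mem_filter, mem_nb] at hw ⊢
      exact ⟨h _ _ hw.1, hw.2⟩
    have hdmono : ∀ G' : SimpleGraph V, (∀ a b, G'.Adj a b → G.Adj a b) →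
        ∀ X : Finset V, X.Nonempty →
        ((pr G').filter (fun e => e.1 ∈ X ∧ e.2 ∈ X)).card < m * X.card := by
      intro G' h X hX
      refine lt_of_le_of_lt ?_ (hdens X hX)
      apply Finset.card_le_card
      intro e he
      rw [Finset.mem_filter, mem_pr] at he ⊢
      exact ⟨h _ _ he.1, he.2⟩
    by_cases hedge : ∃ u v, G.Adj u v ∧ u ∉ W
    · by_cases hsmall : ∃ u v, G.Adj u v ∧ u ∉ W ∧ 2 * dg G u < k ∧ dg G u + dg G v ≤ k
      · obtain ⟨u, v, huv, huW, hu, hdeg⟩ := hsmall
        have hmono : ∀ a b, (cutE G u v).Adj a b → G.Adj a b := by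
          intro a b h
          exact ((cutE_adj G u v a b).1 h).1
        apply ext_edgeT G u v huv L M hsym
        · exact hdeg.trans (hL u v (hG₀ _ _ huv) huW)
        · exact lt_of_lt_of_le hu (hM u huW)
        · apply ih _ _ (cutE G u v) rfl
          · exact fun a b h => hG₀ a b (hmono a b h)
          · intro w
            exact (dg_mono hmono w).trans (hD w)
          · exact hdmono _ hmono
          · exact hWmono _ hmono
          · rw [← hn]
            apply pr_card_lt hmono u v huv
            rw [cutE_adj]
            tauto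
      · push Not at hsmall
        obtain ⟨X, hX1, hX2, hX3, hX4⟩ := reducible G D k m c W hD hk hm hdens hW hedge hsmall
        have hmono : ∀ a b, (cutX G X).Adj a b → G.Adj a b := by
          intro a b h
          exact ((cutX_adj G X a b).1 h).1
        refine ext_bkw G X L M hX3 ?_ ?_ ?_ hsym ?_
        · intro a b hab ha
          have h1 := hL a b (hG₀ _ _ hab) (hX2 a ha).1
          have h2 := hD b
          omega
        · intro a b hab ha
          have h1 := hL a b (hG₀ _ _ hab) (hX2 a ha).1
          have h2 := hX4 a b hab ha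
          omega
        · intro u hu
          have h1 := hM u (hX2 u hu).1
          have h2 := (hX2 u hu).2.2
          omega
        apply ih _ _ (cutX G X) rfl
        · exact fun a b h => hG₀ a b (hmono a b h)
        · intro w
          exact (dg_mono hmono w).trans (hD w)
        · exact hdmono _ hmono
        · exact hWmono _ hmono
        · rw [← hn]
          obtain ⟨u, hu⟩ := hX1
          have h1 := (hX2 u hu).2.1
          unfold dg at h1
          rw [Nat.one_le_iff_ne_zero, Finset.card_ne_zero] at h1
          obtain ⟨v, hv⟩ := h1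
          rw [mem_nb] at hv
          apply pr_card_lt hmono u v hv
          rw [cutX_adj]
          tauto
    · push Not at hedge
      exact LT_mono (H := inW G₀ W) (fun a b hab => ⟨hG₀ _ _ hab, hedge a b hab, hedge b a hab.symm⟩)
        hbase

end Pool.Agent.Q241.DM
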