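import Pool.Agent.H162R2.Sparse.Total

/-!
# Extending total colourings of sparse graphs

The structural lemma and the induction are those of `Pool.Agent.H162R2.Sparse`, carried out with a
set `W` of precoloured vertices in which every vertex has few neighbours.
-/

set_option autoImplicit false
set_option linter.unusedSectionVars false

namespace Pool.Agent.Q241.DM

open Finset Pool.Agent.H162R2.Sparse

variable {V : Type} [Fintype V] [DecidableEq V]

theorem structW (G : SimpleGraph V) (D : ℕ) (a₀ c a : ℝ) (hac : a = a₀ + c) (W : Finset V)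
    (hD : ∀ v, dg G v ≤ D) (hdens : Dens G a₀)
    (hW : ∀ v, (((nb G v).filter (fun w => w ∈ W)).card : ℝ) ≤ c)
    (ha : 34 * a * (1 + Real.log D) ≤ D) (hedge : ∃ u v, G.Adj u v ∧ u ∉ W)
    (hno : ∀ u v, G.Adj u v → u ∉ W → (dg G u : ℝ) ≤ 2 * a → D + 2 ≤ dg G u + dg G v) :
    ∃ X : Finset V, X.Nonempty ∧ (∀ u ∈ X, u ∉ W ∧ 1 ≤ dg G u ∧ (dg G u : ℝ) ≤ 2 * a ∧
        34 * (a : ℝ) ≤ D) ∧
      (∀ u ∈ X, ∀ v ∈ X, ¬ G.Adj u v) ∧
      ∀ u, ∑ e ∈ (ES G X).filter (fun e => e.1 = u), (1 / (hh (ES G X) e.2 : ℚ)) ≤ 1 / 16 := by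
  classical
  let T : Finset V := Finset.univ.filter (fun v => 1 ≤ dg G v ∧ (v ∈ W → 2 * a < (dg G v : ℝ)))
  let S : Finset V := T.filter (fun v => (dg G v : ℝ) ≤ 2 * a)
  let R : Finset V := T.filter (fun v => ¬ (dg G v : ℝ) ≤ 2 * a)
  let B : Finset V := Finset.univ.filter (fun w => ∃ u ∈ S, G.Adj u w)
  have hdpos : ∀ u v, G.Adj u v → 1 ≤ dg G v := by
    intro u v h
    unfold dg
    rw [Nat.one_le_iff_ne_zero, Finset.card_ne_zero]
    exact ⟨u, (mem_nb G v u).2 h.symm⟩
  have hmT : ∀ v, v ∈ T ↔ 1 ≤ dg G v ∧ (v ∈ W → 2 * a < (dg G v : ℝ)) := by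
    intro v
    simp [T]
  have hT0 : T.Nonempty := by
    obtain ⟨u, v, h, hu⟩ := hedge
    exact ⟨u, (hmT u).2 ⟨hdpos v u h.symm, fun h' => absurd h' hu⟩⟩
  have hTpos : (0 : ℝ) < T.card := by
    exact_mod_cast Finset.card_pos.2 hT0
  have hsumT : (∑ v ∈ T, (dg G v : ℝ)) ≤ a * T.card := by
    have h1 := hdens T
    have h2 : (((pr G).filter (fun e => e.1 ∈ T ∧ e.2 ∈ T)).card : ℝ) =
        ∑ v ∈ T, (((nb G v).filter (fun w => w ∈ T)).card : ℝ) := by
      rw [Finset.card_eq_sum_card_fiberwise (f := Prod.fst) (t := T)]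
      · push_cast
        apply Finset.sum_congr rfl
        intro u hu
        congr 1
        apply Finset.card_bij (fun e _ => e.2)
        · intro e he
          rw [Finset.mem_filter, Finset.mem_filter, mem_pr] at he
          rw [Finset.mem_filter, mem_nb, ← he.2]
          exact ⟨he.1.1, he.1.2.2⟩
        · intro e he f hf h
          rw [Finset.mem_filter] at he hf
          exact Prod.ext (he.2.trans hf.2.symm) h
        · intro w hw
          rw [Finset.mem_filter, mem_nb] at hw
          refine ⟨(u, w), ?_, rfl⟩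
          rw [Finset.mem_filter, Finset.mem_filter, mem_pr]
          exact ⟨⟨hw.1, hu, hw.2⟩, rfl⟩
      · intro e he
        rw [Finset.mem_coe, Finset.mem_filter] at he
        exact he.2.1
    have h3 : ∀ v ∈ T, (dg G v : ℝ) ≤ ((nb G v).filter (fun w => w ∈ T)).card + c := by
      intro v _
      have h4 : dg G v = ((nb G v).filter (fun w => w ∈ T)).card +
          ((nb G v).filter (fun w => ¬ w ∈ T)).card :=
        (Finset.card_filter_add_card_filter_not (s := nb G v) (fun w => w ∈ T)).symm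
      have h5 : ((nb G v).filter (fun w => ¬ w ∈ T)).card ≤
          ((nb G v).filter (fun w => w ∈ W)).card := by
        apply Finset.card_le_card
        intro w hw
        rw [Finset.mem_filter] at hw ⊢
        refine ⟨hw.1, ?_⟩
        by_contra hwW
        exact hw.2 ((hmT w).2 ⟨hdpos v w ((mem_nb G v w).1 hw.1), fun h' => absurd h' hwW⟩)
      have h6 : (((nb G v).filter (fun w => ¬ w ∈ T)).card : ℝ) ≤
          ((nb G v).filter (fun w => w ∈ W)).card := by exact_mod_cast h5
      have h7 := hW v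
      rw [h4]
      push_cast
      linarith
    calc (∑ v ∈ T, (dg G v : ℝ)) ≤ ∑ v ∈ T, ((((nb G v).filter (fun w => w ∈ T)).card : ℝ) + c) :=
          Finset.sum_le_sum h3
      _ = (((pr G).filter (fun e => e.1 ∈ T ∧ e.2 ∈ T)).card : ℝ) + T.card * c := by
          rw [Finset.sum_add_distrib, ← h2, Finset.sum_const, nsmul_eq_mul]
      _ ≤ a₀ * T.card + T.card * c := by linarith
      _ = a * T.card := by rw [hac]; ring
  have ha1 : 1 ≤ a := by
    have h1 : (T.card : ℝ) ≤ ∑ v ∈ T, (dg G v : ℝ) := by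
      have h2 : (T.card : ℝ) = ∑ v ∈ T, (1 : ℝ) := by simp
      rw [h2]
      apply Finset.sum_le_sum
      intro v hv
      exact_mod_cast ((hmT v).1 hv).1
    have h3 : (T.card : ℝ) ≤ a * T.card := h1.trans hsumT
    by_contra hcon
    push Not at hcon
    nlinarith
  have hlog : 0 ≤ Real.log (D : ℝ) := Real.log_natCast_nonneg D
  have ha34 : 34 * a ≤ D := by nlinarith
  have hRS : (S.card : ℝ) + R.card = T.card := by
    have h1 := Finset.card_filter_add_card_filter_not (s := T) (fun v => (dg G v : ℝ) ≤ 2 * a)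
    exact_mod_cast h1
  have hR : 2 * a * R.card ≤ a * T.card := by
    refine le_trans ?_ hsumT
    have h1 : (∑ v ∈ R, (dg G v : ℝ)) ≤ ∑ v ∈ T, (dg G v : ℝ) := by
      apply Finset.sum_le_sum_of_subset_of_nonneg (Finset.filter_subset _ _)
      intro v _ _
      positivity
    refine le_trans ?_ h1
    have h2 : 2 * a * (R.card : ℝ) = ∑ v ∈ R, (2 * a) := by
      rw [Finset.sum_const, nsmul_eq_mul]
      ring
    rw [h2]
    apply Finset.sum_le_sum
    intro v hv
    rw [Finset.mem_filter] at hv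
    linarith [hv.2]
  have hS : (T.card : ℝ) ≤ 2 * S.card := by
    have h1 : 2 * (R.card : ℝ) ≤ T.card := by
      by_contra hcon
      push Not at hcon
      nlinarith
    linarith
  have hSW : ∀ u ∈ S, u ∉ W := by
    intro u hu hW'
    rw [Finset.mem_filter] at hu
    have h1 := ((hmT u).1 hu.1).2 hW'
    linarith [hu.2]
  have hBT : B ⊆ T := by
    intro w hw
    rw [Finset.mem_filter] at hw
    obtain ⟨_, u, hu, h⟩ := hw
    refine (hmT w).2 ⟨hdpos u w h, fun _ => ?_⟩
    have h3 := hno u w h (hSW u hu) (Finset.mem_filter.1 hu).2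
    have h4 : (D : ℝ) + 2 ≤ dg G u + dg G w := by exact_mod_cast h3
    have h5 := (Finset.mem_filter.1 hu).2
    linarith
  have hB : ((D : ℝ) + 2 - 2 * a) * B.card ≤ 2 * a * S.card := by
    have h1 : ((D : ℝ) + 2 - 2 * a) * B.card ≤ ∑ v ∈ B, (dg G v : ℝ) := by
      have h2 : ((D : ℝ) + 2 - 2 * a) * B.card = ∑ v ∈ B, ((D : ℝ) + 2 - 2 * a) := by
        rw [Finset.sum_const, nsmul_eq_mul]
        ring
      rw [h2]
      apply Finset.sum_le_sum
      intro w hw
      rw [Finset.mem_filter] at hw
      obtain ⟨_, u, hu, h⟩ := hw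
      have hu' := hSW u hu
      rw [Finset.mem_filter] at hu
      have h3 := hno u w h hu' hu.2
      have h4 : (D : ℝ) + 2 ≤ dg G u + dg G w := by exact_mod_cast h3
      linarith [hu.2]
    have h2 : (∑ v ∈ B, (dg G v : ℝ)) ≤ ∑ v ∈ T, (dg G v : ℝ) := by
      apply Finset.sum_le_sum_of_subset_of_nonneg hBT
      intro v _ _
      positivity
    nlinarith
  have hHW : 16 * (HW (ES G S) : ℝ) < (S.card : ℝ) := by
    have h1 := HW_le (ES G S) D (fun w => (hh_ES_le G S w).trans (hD w)) B (by
      intro e he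
      rw [mem_ES] at he
      rw [Finset.mem_filter]
      exact ⟨Finset.mem_univ _, e.1, he.2, he.1⟩)
    have hBn : (0 : ℝ) ≤ B.card := by positivity
    have hSpos : (0 : ℝ) < S.card := by linarith
    have h2 : 16 * ((B.card : ℝ) * (1 + Real.log D)) < S.card := by
      rcases hBn.lt_or_eq with h3 | h3
      · have h4 : (32 * a * (1 + Real.log D) + 2) * B.card ≤ 2 * a * S.card := by
          refine le_trans ?_ hB
          apply mul_le_mul_of_nonneg_right _ hBn
          nlinarith
        by_contra hcon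
        push Not at hcon
        nlinarith
      · rw [← h3]
        simpa using hSpos
    linarith
  obtain ⟨X, hX1, hX2, hX3⟩ := peel (ES G S) S (by
    intro e he
    exact ((mem_ES G S e).1 he).2) (by
    have h1 : ((16 * HW (ES G S) : ℚ) : ℝ) < ((S.card : ℚ) : ℝ) := by
      push_cast
      exact hHW
    exact_mod_cast h1)
  have hEX : (ES G S).filter (fun e => e.1 ∈ X) = ES G X := by
    ext e
    rw [Finset.mem_filter, mem_ES, mem_ES]
    constructor
    · rintro ⟨⟨h1, _⟩, h2⟩
      exact ⟨h1, h2⟩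
    · rintro ⟨h1, h2⟩
      exact ⟨⟨h1, hX1 h2⟩, h2⟩
  rw [hEX] at hX3
  refine ⟨X, hX2, ?_, ?_, hX3⟩
  · intro u hu
    have h1 := hX1 hu
    have h1' := hSW u h1
    rw [Finset.mem_filter] at h1
    exact ⟨h1', ((hmT u).1 h1.1).1, h1.2, ha34⟩
  · intro u hu v hv h
    have h1 := hX1 hu
    have h2 := hX1 hv
    have h1' := hSW u h1
    rw [Finset.mem_filter] at h1 h2
    have h3 := hno u v h h1' h1.2
    have h4 : (D : ℝ) + 2 ≤ dg G u + dg G v := by exact_mod_cast h3
    linarith [h1.2, h2.2]

theorem ext_bipW (G : SimpleGraph V) (X : Finset V) (D : ℕ) (L : V → V → Finset ℕ)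
    (M : V → Finset ℕ) (hX : ∀ u ∈ X, ∀ v ∈ X, ¬ G.Adj u v)
    (hθ : ∀ u, ∑ e ∈ (ES G X).filter (fun e => e.1 = u), (1 / (hh (ES G X) e.2 : ℚ)) ≤ 1 / 16)
    (hD : ∀ v, dg G v ≤ D) (hL : ∀ a b, G.Adj a b → a ∈ X → D + 1 ≤ (L a b).card)
    (hM : ∀ u ∈ X, 2 * dg G u < (M u).card)
    (hsym : ∀ a b, L a b = L b a) (IH : LT (cutX G X) L M) : LT G L M := by
  classical
  obtain ⟨f, g, hf1, hf2, hf3, hg1, hg2, hg3⟩ := IH
  let L' : V × V → Finset ℕ := fun e =>
    L e.1 e.2 \ (((nb G e.2).filter (fun v => ¬ v ∈ X)).image (f e.2) ∪ {g e.2})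
  obtain ⟨col, hc1, hc2⟩ := bip_list (ES G X) hθ L' (by
    intro e he
    have h1 := dg_split G X e.2
    have h2 := Finset.card_image_le (s := (nb G e.2).filter (fun v => ¬ v ∈ X)) (f := f e.2)
    have h3 := Finset.le_card_sdiff
      (((nb G e.2).filter (fun v => ¬ v ∈ X)).image (f e.2) ∪ {g e.2}) (L e.1 e.2)
    have h4 := hL e.1 e.2 ((mem_ES G X e).1 he).1 ((mem_ES G X e).1 he).2
    have h5 := hD e.2
    have h6 := Finset.card_union_le (((nb G e.2).filter (fun v => ¬ v ∈ X)).image (f e.2))
      {g e.2}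
    rw [Finset.card_singleton] at h6
    simp only [L']
    omega)
  have hcf : ∀ a b d, a ∉ X → b ∈ X → d ∉ X → G.Adj a b → G.Adj a d → col (b, a) ≠ f a d := by
    intro a b d ha hb hd hab had h
    have h1 := hc1 (b, a) ((mem_ES G X (b, a)).2 ⟨hab.symm, hb⟩)
    simp only [L'] at h1
    rw [Finset.mem_sdiff] at h1
    apply h1.2
    rw [h]
    exact Finset.mem_union_left _
      (Finset.mem_image_of_mem _ (Finset.mem_filter.2 ⟨(mem_nb G a d).2 had, hd⟩))
  have hcg : ∀ a b, b ∈ X → G.Adj a b → g a ≠ col (b, a) := by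
    intro a b hb hab h
    have h1 := hc1 (b, a) ((mem_ES G X (b, a)).2 ⟨hab.symm, hb⟩)
    simp only [L'] at h1
    rw [Finset.mem_sdiff] at h1
    apply h1.2
    rw [← h]
    exact Finset.mem_union_right _ (Finset.mem_singleton_self _)
  let f' : V → V → ℕ := fun a b => if a ∈ X then col (a, b) else if b ∈ X then col (b, a) else f a b
  have hm : ∀ u, ∃ m, u ∈ X → m ∈ M u ∧ m ∉ (nb G u).image g ∪ (nb G u).image (f' u) := by
    intro u
    by_cases hu : u ∈ X
    · obtain ⟨m, hm1, hm2⟩ : ∃ m ∈ M u, m ∉ (nb G u).image g ∪ (nb G u).image (f' u) := by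
        apply Finset.exists_mem_notMem_of_card_lt_card
        have h1 := Finset.card_union_le ((nb G u).image g) ((nb G u).image (f' u))
        have h2 := Finset.card_image_le (s := nb G u) (f := g)
        have h3 := Finset.card_image_le (s := nb G u) (f := f' u)
        have h4 := hM u hu
        unfold dg at h4
        omega
      exact ⟨m, fun _ => ⟨hm1, hm2⟩⟩
    · exact ⟨0, fun h => absurd h hu⟩
  choose m hm using hm
  have hm1 : ∀ u, u ∈ X → m u ∈ M u := fun u hu => (hm u hu).1
  have hmg : ∀ u b, u ∈ X → G.Adj u b → g b ≠ m u := by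
    intro u b hu hb h
    apply (hm u hu).2
    rw [← h]
    exact Finset.mem_union_left _ (Finset.mem_image_of_mem _ ((mem_nb G u b).2 hb))
  have hmf : ∀ u b, u ∈ X → G.Adj u b → f' u b ≠ m u := by
    intro u b hu hb h
    apply (hm u hu).2
    rw [← h]
    exact Finset.mem_union_right _ (Finset.mem_image_of_mem _ ((mem_nb G u b).2 hb))
  refine ⟨f', fun a => if a ∈ X then m a else g a, ?_, ?_, ?_, ?_, ?_, ?_⟩
  · intro a b hab
    simp only [f']
    by_cases ha : a ∈ X
    · have hb : b ∉ X := fun hb => hX a ha b hb hab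
      rw [if_pos ha, if_neg hb, if_pos ha]
    · by_cases hb : b ∈ X
      · rw [if_neg ha, if_pos hb, if_pos hb]
      · rw [if_neg ha, if_neg hb, if_neg hb, if_neg ha]
        exact hf1 a b ((cutX_adj G X a b).2 ⟨hab, ha, hb⟩)
  · intro a b hab
    simp only [f']
    by_cases ha : a ∈ X
    · rw [if_pos ha]
      have h1 := hc1 (a, b) ((mem_ES G X (a, b)).2 ⟨hab, ha⟩)
      simp only [L'] at h1
      exact (Finset.mem_sdiff.1 h1).1
    · by_cases hb : b ∈ X
      · rw [if_neg ha, if_pos hb]
        have h1 := hc1 (b, a) ((mem_ES G X (b, a)).2 ⟨hab.symm, hb⟩)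
        simp only [L'] at h1
        rw [hsym]
        exact (Finset.mem_sdiff.1 h1).1
      · rw [if_neg ha, if_neg hb]
        exact hf2 a b ((cutX_adj G X a b).2 ⟨hab, ha, hb⟩)
  · intro a b d hab had hbd
    simp only [f']
    by_cases ha : a ∈ X
    · rw [if_pos ha, if_pos ha]
      apply hc2 _ ((mem_ES G X (a, b)).2 ⟨hab, ha⟩) _ ((mem_ES G X (a, d)).2 ⟨had, ha⟩)
      · intro h
        exact hbd (Prod.ext_iff.1 h).2
      · left
        rfl
    · rw [if_neg ha, if_neg ha]
      by_cases hb : b ∈ X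
      · rw [if_pos hb]
        by_cases hd : d ∈ X
        · rw [if_pos hd]
          apply hc2 _ ((mem_ES G X (b, a)).2 ⟨hab.symm, hb⟩) _
            ((mem_ES G X (d, a)).2 ⟨had.symm, hd⟩)
          · intro h
            exact hbd (Prod.ext_iff.1 h).1
          · right
            rfl
        · rw [if_neg hd]
          exact hcf a b d ha hb hd hab had
      · rw [if_neg hb]
        by_cases hd : d ∈ X
        · rw [if_pos hd]
          exact (hcf a d b ha hd hb had hab).symm
        · rw [if_neg hd]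
          exact hf3 a b d ((cutX_adj G X a b).2 ⟨hab, ha, hb⟩)
            ((cutX_adj G X a d).2 ⟨had, ha, hd⟩) hbd
  · intro a
    simp only
    by_cases ha : a ∈ X
    · rw [if_pos ha]
      exact hm1 a ha
    · rw [if_neg ha]
      exact hg1 a
  · intro a b hab
    simp only
    by_cases ha : a ∈ X
    · have hb : b ∉ X := fun hb => hX a ha b hb hab
      rw [if_pos ha, if_neg hb]
      exact (hmg a b ha hab).symm
    · rw [if_neg ha]
      by_cases hb : b ∈ X
      · rw [if_pos hb]
        exact hmg b a hb hab.symm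
      · rw [if_neg hb]
        exact hg2 a b ((cutX_adj G X a b).2 ⟨hab, ha, hb⟩)
  · intro a b hab
    simp only
    by_cases ha : a ∈ X
    · rw [if_pos ha]
      exact (hmf a b ha hab).symm
    · rw [if_neg ha]
      simp only [f']
      rw [if_neg ha]
      by_cases hb : b ∈ X
      · rw [if_pos hb]
        exact hcg a b hb hab
      · rw [if_neg hb]
        exact hg3 a b ((cutX_adj G X a b).2 ⟨hab, ha, hb⟩)


/-- the graph of the edges inside `W` -/
def inW (G : SimpleGraph V) (W : Finset V) : SimpleGraph V where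
  Adj a b := G.Adj a b ∧ a ∈ W ∧ b ∈ W
  symm := ⟨fun _ _ h => ⟨h.1.symm, h.2.2, h.2.1⟩⟩
  loopless := ⟨fun _ h => G.loopless.irrefl _ h.1⟩

theorem LT_mono {G H : SimpleGraph V} (h : ∀ a b, G.Adj a b → H.Adj a b) {L : V → V → Finset ℕ}
    {M : V → Finset ℕ} (hH : LT H L M) : LT G L M := by
  obtain ⟨f, g, hf1, hf2, hf3, hg1, hg2, hg3⟩ := hH
  exact ⟨f, g, fun a b hab => hf1 a b (h a b hab), fun a b hab => hf2 a b (h a b hab),
    fun a b c hab hac => hf3 a b c (h a b hab) (h a c hac), hg1,
    fun a b hab => hg2 a b (h a b hab), fun a b hab => hg3 a b (h a b hab)⟩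

theorem main_totalW (D : ℕ) (a₀ c a : ℝ) (hac : a = a₀ + c)
    (ha : 34 * a * (1 + Real.log D) ≤ D) (W : Finset V)
    (L : V → V → Finset ℕ) (M : V → Finset ℕ)
    (hsym : ∀ a b, L a b = L b a) (hM : ∀ v, v ∉ W → D + 1 ≤ (M v).card)
    (G₀ : SimpleGraph V) (hbase : LT (inW G₀ W) L M)
    (hL : ∀ u v, G₀.Adj u v → u ∉ W → D + 1 ≤ (L u v).card) :
    ∀ (n : ℕ) (G : SimpleGraph V), (pr G).card = n → (∀ a b, G.Adj a b → G₀.Adj a b) →
      (∀ v, dg G v ≤ D) → Dens G a₀ →
      (∀ v, (((nb G v).filter (fun w => w ∈ W)).card : ℝ) ≤ c) → LT G L M := by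
  classical
  intro n
  induction n using Nat.strong_induction_on with
  | _ n ih =>
    intro G hn hG₀ hD hdens hW
    have hWmono : ∀ G' : SimpleGraph V, (∀ a b, G'.Adj a b → G.Adj a b) →
        ∀ v, (((nb G' v).filter (fun w => w ∈ W)).card : ℝ) ≤ c := by
      intro G' h v
      refine le_trans ?_ (hW v)
      have h1 : ((nb G' v).filter (fun w => w ∈ W)).card ≤ ((nb G v).filter (fun w => w ∈ W)).card := by
        apply Finset.card_le_card
        intro w hw
        rw [Finset.mem_filter, mem_nb] at hw ⊢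
        exact ⟨h _ _ hw.1, hw.2⟩
      exact_mod_cast h1
    by_cases hedge : ∃ u v, G.Adj u v ∧ u ∉ W
    · by_cases hsmall : ∃ u v, G.Adj u v ∧ u ∉ W ∧ dg G u + dg G v ≤ D + 1 ∧ 2 * dg G u ≤ D
      · obtain ⟨u, v, huv, huW, hdeg, hu⟩ := hsmall
        have hmono : ∀ a b, (cutE G u v).Adj a b → G.Adj a b := by
          intro a b h
          exact ((cutE_adj G u v a b).1 h).1
        apply ext_edgeT G u v huv L M hsym
        · have := hL u v (hG₀ _ _ huv) huW
          omega
        · have := hM u huW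
          omega
        · apply ih _ _ (cutE G u v) rfl
          · exact fun a b h => hG₀ a b (hmono a b h)
          · intro w
            exact (dg_mono hmono w).trans (hD w)
          · exact Dens_mono hmono hdens
          · exact hWmono _ hmono
          · rw [← hn]
            apply pr_card_lt hmono u v huv
            rw [cutE_adj]
            tauto
      · push Not at hsmall
        have ha0 : ∀ u v, G.Adj u v → (dg G u : ℝ) ≤ 2 * a → 2 * dg G u ≤ D := by
          intro u v huv h
          have hlog : 0 ≤ Real.log (D : ℝ) := Real.log_natCast_nonneg D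
          have h0 : (0 : ℝ) ≤ dg G u := by positivity
          have h1 : (2 * (dg G u : ℝ)) ≤ D := by nlinarith
          exact_mod_cast h1
        obtain ⟨X, hX1, hX2, hX3, hX4⟩ := structW G D a₀ c a hac W hD hdens hW ha hedge (by
          intro u v huv huW h
          have h1 := hsmall u v huv huW
          have h2 := ha0 u v huv h
          by_contra hcon
          have h3 := h1 (by omega)
          omega)
        have hmono : ∀ a b, (cutX G X).Adj a b → G.Adj a b := by
          intro a b h
          exact ((cutX_adj G X a b).1 h).1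
        refine ext_bipW G X D L M hX3 hX4 hD (fun u v huv hu => hL u v (hG₀ _ _ huv) (hX2 u hu).1)
          ?_ hsym ?_
        · intro u hu
          have h1 := (hX2 u hu).2.1
          unfold dg at h1
          rw [Nat.one_le_iff_ne_zero, Finset.card_ne_zero] at h1
          obtain ⟨v, hv⟩ := h1
          rw [mem_nb] at hv
          have h2 := ha0 u v hv (hX2 u hu).2.2.1
          have := hM u (hX2 u hu).1
          omega
        apply ih _ _ (cutX G X) rfl
        · exact fun a b h => hG₀ a b (hmono a b h)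
        · intro w
          exact (dg_mono hmono w).trans (hD w)
        · exact Dens_mono hmono hdens
        · exact hWmono _ hmono
        · rw [← hn]
          obtain ⟨u, hu⟩ := hX1
          have h1 := (hX2 u hu).2.1
          unfold dg at h1
          rw [Nat.one_le_iff_ne_zero, Finset.card_ne_zero] at h1
          obtain ⟨v, hv⟩ := h1
          rw [mem_nb] at hv
          apply pr_card_lt hmono u v hv
          rw [cutX_adj]
          tauto
    · push Not at hedge
      exact LT_mono (H := inW G₀ W) (fun a b hab => ⟨hG₀ _ _ hab, hedge a b hab, hedge b a hab.symm⟩)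
        hbase

end Pool.Agent.Q241.DM
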